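import Mathlib

/-!
# Project M, block W1: the group lemma
-/

set_option autoImplicit false

namespace Pool.Agent.M

/-- **The group lemma.** If `φ y / y` is in `Y₀` for all `y` in the finite group `Y / N`, and `Y₀` has index at
least `n` in `Y`, then `φ` has at least `n` fixed points in `Y / N`. -/
theorem w1_group {B : Type*} [CommGroup B] (N Y Y₀ : Subgroup B) (φ : B →* B)
    (hN : N ≤ N.comap φ) (hY₀ : Y₀ ≤ Y) (hNY : N ≤ Y₀) (n : ℕ)
    (T : Set B) (hT : T.Finite) (hfin : ∀ y ∈ Y, ∃ t ∈ T, y * t⁻¹ ∈ N)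
    (hφ : ∀ y ∈ Y, φ y * y⁻¹ ∈ Y₀) (y₁ : B) (hy₁ : y₁ ∈ Y)
    (hord : ∀ i : ℕ, 0 < i → i < n → y₁ ^ i ∉ Y₀) :
    ∃ f : Fin n → B, ∀ i, f i ∈ Y ∧ φ (f i) * (f i)⁻¹ ∈ N ∧ ∀ j, j ≠ i → f i * (f j)⁻¹ ∉ N := by
  classical
  let φ' : B ⧸ N →* B ⧸ N := QuotientGroup.map N N φ hN
  let Yb : Subgroup (B ⧸ N) := Y.map (QuotientGroup.mk' N)
  let Zb : Subgroup (B ⧸ N) := Y₀.map (QuotientGroup.mk' N)
  have hmk : ∀ (H : Subgroup B), N ≤ H → ∀ y : B, (y : B ⧸ N) ∈ H.map (QuotientGroup.mk' N) → y ∈ H := by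
    rintro H hH y ⟨z, hz, hzy⟩
    have h1 : z⁻¹ * y ∈ N := QuotientGroup.eq.1 hzy
    have h2 := H.mul_mem hz (hH h1)
    rwa [mul_inv_cancel_left] at h2
  have hYfin : Finite Yb := by
    have h1 : (Yb : Set (B ⧸ N)) ⊆ (fun t : B => (t : B ⧸ N)) '' T := by
      rintro _ ⟨y, hy, rfl⟩
      obtain ⟨t, ht, h2⟩ := hfin y hy
      refine ⟨t, ht, ?_⟩
      change (t : B ⧸ N) = (y : B ⧸ N)
      rw [QuotientGroup.eq, mul_comm]
      exact h2
    exact (hT.image _).subset h1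
  let ψ : Yb →* B ⧸ N := (φ' / MonoidHom.id _).comp Yb.subtype
  have hψ : ∀ y : Yb, ψ y = φ' y / y := fun y => rfl
  have hrange : ψ.range ≤ Zb := by
    rintro _ ⟨⟨_, y, hy, rfl⟩, rfl⟩
    refine ⟨φ y * y⁻¹, hφ y hy, ?_⟩
    rw [hψ]
    change ((φ y * y⁻¹ : B) : B ⧸ N) = (φ y : B ⧸ N) / (y : B ⧸ N)
    rw [div_eq_mul_inv]
    rfl
  have hZY : Zb ≤ Yb := Subgroup.map_mono hY₀
  have hZfin : Finite Zb := Finite.of_injective _ (Subgroup.inclusion_injective hZY)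
  have hYpos : 0 < Nat.card Yb := Nat.card_pos
  -- the index of `Zb` in `Yb`
  have hidx : n ≤ (Zb.subgroupOf Yb).index := by
    have h0 : ∀ i : ℕ, ((y₁ ^ i : B) : B ⧸ N) ∈ Yb := fun i => ⟨_, Y.pow_mem hy₁ i, rfl⟩
    let F : Fin n → Yb ⧸ Zb.subgroupOf Yb := fun i => ((⟨_, h0 i⟩ : Yb) : Yb ⧸ Zb.subgroupOf Yb)
    have hF : Function.Injective F := by
      have key : ∀ i j : Fin n, i < j → F i ≠ F j := by
        intro i j hij h1
        rw [QuotientGroup.eq, Subgroup.mem_subgroupOf] at h1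
        have h2 : (((y₁ ^ (i : ℕ))⁻¹ * y₁ ^ (j : ℕ) : B) : B ⧸ N) ∈ Zb := h1
        have h3 := hmk Y₀ hNY _ h2
        have h4 : (y₁ ^ (i : ℕ))⁻¹ * y₁ ^ (j : ℕ) = y₁ ^ ((j : ℕ) - i) := by
          rw [inv_mul_eq_iff_eq_mul, ← pow_add]
          congr 1
          have : (i : ℕ) < j := hij
          omega
        rw [h4] at h3
        refine hord _ ?_ ?_ h3
        · have : (i : ℕ) < j := hij
          omega
        · have := j.2
          omega
      intro i j h1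
      rcases lt_trichotomy i j with h2 | h2 | h2
      · exact absurd h1 (key i j h2)
      · exact h2
      · exact absurd h1.symm (key j i h2)
    have h5 : Finite (Yb ⧸ Zb.subgroupOf Yb) := inferInstance
    have h6 := Nat.card_le_card_of_injective F hF
    rwa [Nat.card_fin] at h6
  -- counting
  have hc1 : Nat.card (Zb.subgroupOf Yb) * (Zb.subgroupOf Yb).index = Nat.card Yb :=
    Subgroup.card_mul_index _
  have hc2 : Nat.card ψ.ker * ψ.ker.index = Nat.card Yb := Subgroup.card_mul_index _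
  have hc3 : Nat.card (Zb.subgroupOf Yb) = Nat.card Zb :=
    Nat.card_congr (Subgroup.subgroupOfEquivOfLe hZY).toEquiv
  have hc4 : ψ.ker.index ≤ Nat.card Zb := by
    rw [Subgroup.index_ker]
    exact Nat.card_le_card_of_injective _ (Subgroup.inclusion_injective hrange)
  have hZpos : 0 < Nat.card Zb := Nat.card_pos
  have hker : n ≤ Nat.card ψ.ker := by
    by_contra hcon
    push Not at hcon
    have h1 : Nat.card ψ.ker * ψ.ker.index ≤ Nat.card ψ.ker * Nat.card Zb :=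
      Nat.mul_le_mul_left _ hc4
    have h2 : Nat.card ψ.ker * Nat.card Zb < n * Nat.card Zb := Nat.mul_lt_mul_of_pos_right hcon hZpos
    have h3 : n * Nat.card Zb ≤ (Zb.subgroupOf Yb).index * Nat.card Zb := Nat.mul_le_mul_right _ hidx
    rw [hc2] at h1
    rw [hc3, mul_comm] at hc1
    omega
  have hkfin : Finite ψ.ker := inferInstance
  obtain ⟨e⟩ : Nonempty (Fin n ↪ ψ.ker) := by
    have h1 : n ≤ Nat.card ψ.ker := hker
    have h2 : Nonempty (Fin (Nat.card ψ.ker) ≃ ψ.ker) := ⟨(Finite.equivFin _).symm⟩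
    exact ⟨(Fin.castLEEmb h1).trans h2.some.toEmbedding⟩
  have hrep : ∀ i, ∃ y ∈ Y, (y : B ⧸ N) = ((e i : Yb) : B ⧸ N) := fun i => (e i : Yb).2
  choose f hfY hf using hrep
  refine ⟨f, fun i => ⟨hfY i, ?_, ?_⟩⟩
  · have h1 : ψ (e i : Yb) = 1 := (e i).2
    rw [hψ, ← hf] at h1
    have h2 : ((φ (f i) * (f i)⁻¹ : B) : B ⧸ N) = 1 := by
      rw [← h1, div_eq_mul_inv]
      rfl
    exact (QuotientGroup.eq_one_iff _).1 h2
  · intro j hj h1
    apply hj
    apply e.injective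
    apply Subtype.ext
    apply Subtype.ext
    rw [← hf, ← hf, QuotientGroup.eq, mul_comm]
    exact h1

end Pool.Agent.M
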