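import Pool.Agent.Helper10.M.W1c

/-!
# Project M, block W1: the degrees
-/

set_option autoImplicit false
set_option linter.unusedSectionVars false

universe u

namespace Pool.Agent.M

open VC (Place ord IsFunctionField)
open FF

section

variable {E F : Type u} [Field E] [IsAlgClosed E] [CharZero E] [Field F] [Algebra E F]
  {F0 : IntermediateField E F} {s : F ≃+* F} {n : ℕ} {w : F} {ζ : E}

theorem Cyc.S_single (h : Cyc F0 s n w ζ) (Q : Place E F) (m : ℤ) :
    h.S (Finsupp.single Q m) = Finsupp.single (h.im Q) m :=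
  imgDiv_single s (RingEquiv.refl E) h.hs Q m

theorem Cyc.S_apply (h : Cyc F0 s n w ζ) (D : Place E F →₀ ℤ) (Q : Place E F) :
    h.S D (h.im Q) = D Q :=
  imgDiv_apply s (RingEquiv.refl E) h.hs D Q

theorem Cyc.S_pow_single (h : Cyc F0 s n w ζ) (i : ℕ) (Q : Place E F) (m : ℤ) :
    (h.S ^ i) (Finsupp.single Q m) = Finsupp.single (h.im^[i] Q) m := by
  induction i with
  | zero => rfl
  | succ i ih =>
    rw [pow_succ', Module.End.mul_apply, ih, h.S_single, Function.iterate_succ_apply']

theorem Cyc.S_n (h : Cyc F0 s n w ζ) : h.S ^ n = 1 := by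
  refine LinearMap.ext fun D => ?_
  induction D using Finsupp.induction_linear with
  | zero => rw [map_zero, map_zero]
  | add D D' hD hD' => rw [map_add, map_add, hD, hD']
  | single Q m =>
    rw [h.S_pow_single, h.im_n]
    rfl

theorem deg_imgDiv (τ : F ≃+* F) (σ : E ≃+* E)
    (hτ : ∀ a, τ (algebraMap E F a) = algebraMap E F (σ a)) (D : Place E F →₀ ℤ) :
    deg (imgDiv τ σ hτ D) = deg D := by
  induction D using Finsupp.induction_linear with
  | zero => rw [map_zero]
  | add D D' hD hD' => rw [map_add, map_add, map_add, hD, hD']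
  | single Q m => rw [imgDiv_single, deg_single, deg_single]

theorem Cyc.deg_S (h : Cyc F0 s n w ζ) (D : Place E F →₀ ℤ) : deg (h.S D) = deg D :=
  deg_imgDiv s (RingEquiv.refl E) h.hs D

theorem Cyc.deg_S_pow (h : Cyc F0 s n w ζ) (i : ℕ) (D : Place E F →₀ ℤ) :
    deg ((h.S ^ i) D) = deg D := by
  induction i with
  | zero => rfl
  | succ i ih => rw [pow_succ', Module.End.mul_apply, h.deg_S, ih]

variable (hF : IsFunctionField E F) (hF0 : IsFunctionField E F0)

theorem Cyc.S_dv (h : Cyc F0 s n w ζ) (g : F) : h.S (dv hF g) = dv hF (s g) :=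
  imgDiv_dv s (RingEquiv.refl E) h.hs hF g

theorem Cyc.S_pow_dv (h : Cyc F0 s n w ζ) (i : ℕ) (g : F) :
    (h.S ^ i) (dv hF g) = dv hF (s^[i] g) := by
  induction i with
  | zero => rfl
  | succ i ih => rw [pow_succ', Module.End.mul_apply, ih, h.S_dv, Function.iterate_succ_apply']

include hF hF0 in
/-- the degree of an invariant divisor is divisible by `n` -/
theorem Cyc.deg_inv (h : Cyc F0 s n w ζ) : ∀ (N : ℕ) (A : Place E F →₀ ℤ), A.support.card ≤ N →
    (∀ Q, A (h.im Q) = A Q) → (n : ℤ) ∣ deg A := by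
  classical
  intro N
  induction N with
  | zero =>
    intro A hA _
    have h1 : A = 0 := by
      rw [← Finsupp.support_eq_empty, ← Finset.card_eq_zero]
      omega
    rw [h1, map_zero]
    exact dvd_zero _
  | succ N ih =>
    intro A hA hinv
    by_cases h0 : A = 0
    · rw [h0, map_zero]
      exact dvd_zero _
    obtain ⟨Q, hQ⟩ := Finsupp.support_nonempty_iff.2 h0
    set B : Place E F →₀ ℤ := ∑ j ∈ Finset.range n, Finsupp.single (h.im^[j] Q) (A Q) with hB
    have hBim : ∀ Q', B (h.im Q') = B Q' := by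
      intro Q'
      have h1 : h.S B = B := by
        rw [hB, map_sum]
        have h2 : ∀ j ∈ Finset.range n, h.S (Finsupp.single (h.im^[j] Q) (A Q)) =
            Finsupp.single (h.im^[j + 1] Q) (A Q) := fun j _ => by
          rw [h.S_single, Function.iterate_succ_apply']
        rw [Finset.sum_congr rfl h2]
        have h3 := Finset.sum_range_succ (fun k => Finsupp.single (h.im^[k] Q) (A Q)) n
        have h4 := Finset.sum_range_succ' (fun k => Finsupp.single (h.im^[k] Q) (A Q)) n
        rw [h3, h.im_n] at h4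
        exact (add_right_cancel h4).symm
      conv_lhs => rw [← h1]
      exact h.S_apply B Q'
    have hAj : ∀ j, A (h.im^[j] Q) = A Q := by
      intro j
      induction j with
      | zero => rfl
      | succ j ih => rw [Function.iterate_succ_apply', hinv, ih]
    have hBQ : ∀ Q', B Q' = if ∃ j < n, h.im^[j] Q = Q' then A Q else 0 := by
      intro Q'
      rw [hB, Finsupp.finsetSum_apply]
      split_ifs with h1
      · obtain ⟨j, hj, rfl⟩ := h1
        rw [Finset.sum_eq_single j]
        · rw [Finsupp.single_eq_same]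
        · intro i hi hij
          rw [Finsupp.single_apply, if_neg]
          intro h2
          have hin := Finset.mem_range.1 hi
          rcases lt_or_gt_of_ne hij with h3 | h3
          · have h4 : h.im^[i] (h.im^[j - i] Q) = h.im^[i] Q := by
              rw [← Function.iterate_add_apply, Nat.add_sub_cancel' h3.le, h2]
            exact h.free hF hF0 Q (by omega) (by omega)
              ((img_injective s (RingEquiv.refl E) h.hs).iterate _ h4)
          · have h4 : h.im^[j] (h.im^[i - j] Q) = h.im^[j] Q := by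
              rw [← Function.iterate_add_apply, Nat.add_sub_cancel' h3.le, h2]
            exact h.free hF hF0 Q (by omega) (by omega)
              ((img_injective s (RingEquiv.refl E) h.hs).iterate _ h4)
        · intro h2
          exact absurd (Finset.mem_range.2 hj) h2
      · refine Finset.sum_eq_zero fun j hj => ?_
        rw [Finsupp.single_apply, if_neg]
        intro h2
        exact h1 ⟨j, Finset.mem_range.1 hj, h2⟩
    have hsupp : (A - B).support.card ≤ N := by
      have h1 : (A - B).support ⊆ A.support.erase Q := by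
        intro Q' hQ'
        rw [Finsupp.mem_support_iff, Finsupp.sub_apply, hBQ] at hQ'
        rw [Finset.mem_erase, Finsupp.mem_support_iff]
        split_ifs at hQ' with h2
        · obtain ⟨j, hj, rfl⟩ := h2
          rw [hAj, sub_self] at hQ'
          exact absurd rfl hQ'
        · rw [sub_zero] at hQ'
          refine ⟨?_, hQ'⟩
          rintro rfl
          exact h2 ⟨0, h.hn, rfl⟩
      have h2 := Finset.card_le_card h1
      rw [Finset.card_erase_of_mem hQ] at h2
      omega
    have h1 := ih (A - B) hsupp (fun Q' => by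
      rw [Finsupp.sub_apply, Finsupp.sub_apply, hinv, hBim])
    have h2 : deg B = n * A Q := by
      rw [hB, map_sum]
      simp only [deg_single]
      rw [Finset.sum_const, Finset.card_range, nsmul_eq_mul]
    rw [map_sub, h2] at h1
    have h3 := dvd_add h1 (dvd_mul_right (n : ℤ) (A Q))
    rwa [sub_add_cancel] at h3

theorem Cyc.dv_prod (h : Cyc F0 s n w ζ) {g : F} (hg : g ≠ 0) :
    dv hF (∏ j ∈ Finset.range n, s^[j] g) = (∑ j ∈ Finset.range n, h.S ^ j) (dv hF g) := by
  classical
  have h0 : ∀ j, s^[j] g ≠ 0 := by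
    intro j
    obtain ⟨σ, hσ⟩ := iter_hom s j
    rw [← hσ]
    exact (map_ne_zero_iff σ σ.injective).2 hg
  have h1 : ∀ m, dv hF (∏ j ∈ Finset.range m, s^[j] g) =
      (∑ j ∈ Finset.range m, h.S ^ j) (dv hF g) := by
    intro m
    induction m with
    | zero => rw [Finset.prod_range_zero, Finset.sum_range_zero, dv_one]; rfl
    | succ m ih =>
      rw [Finset.prod_range_succ, Finset.sum_range_succ, dv_mul hF
        (Finset.prod_ne_zero_iff.2 fun j _ => h0 j) (h0 m), ih, LinearMap.add_apply,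
        h.S_pow_dv]
  exact h1 n

include hF0 in
/-- The degree is well defined modulo `n` (Hilbert 90). -/
theorem Cyc.deg_wd (h : Cyc F0 s n w ζ) {D : Place E F →₀ ℤ} {u : F} (hu : u ≠ 0)
    (hD : h.S D - D = dv hF u) : (n : ℤ) ∣ deg D := by
  classical
  have h1 : dv hF (∏ j ∈ Finset.range n, s^[j] u) = 0 := by
    rw [h.dv_prod hF hu, ← hD]
    have h2 : h.S D - D = (h.S - 1) D := rfl
    rw [h2, ← Module.End.mul_apply, geom_sum_mul, h.S_n, sub_self]
    rfl
  obtain ⟨c, hc⟩ := exists_const_of_dv_eq_zero hF (f := ∏ j ∈ Finset.range n, s^[j] u)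
    (fun P => by rw [← dv_apply hF, h1]; exact le_rfl)
  have hsu : ∀ j, s^[j] u ≠ 0 := by
    intro j
    obtain ⟨σ, hσ⟩ := iter_hom s j
    rw [← hσ]
    exact (map_ne_zero_iff σ σ.injective).2 hu
  have hc0 : c ≠ 0 := by
    rintro rfl
    rw [map_zero] at hc
    exact (Finset.prod_ne_zero_iff.2 fun j _ => hsu j) hc.symm
  obtain ⟨e, he⟩ := IsAlgClosed.exists_pow_nat_eq c h.hn
  have he0 : e ≠ 0 := by
    rintro rfl
    rw [zero_pow h.hn.ne'] at he
    exact hc0 he.symm
  have heF : algebraMap E F e ≠ 0 := (map_ne_zero _).2 he0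
  obtain ⟨b, hb0, hb⟩ := h90 s h.hn h.sn (fun i hi hin => ⟨w, by
    rw [h.s_pow_w]
    intro h2
    have h3 : algebraMap E F ζ ^ i = 1 := mul_right_cancel₀ h.w_ne (by rw [h2, one_mul])
    rw [← map_pow, map_eq_one_iff _ (algebraMap E F).injective] at h3
    exact absurd (Nat.le_of_dvd hi (h.hζ.dvd_of_pow_eq_one i h3)) (by omega)⟩)
    (a := u / algebraMap E F e) (by
      have h2 : ∀ j ∈ Finset.range n, s^[j] (u / algebraMap E F e) = s^[j] u / algebraMap E F e := by
        intro j _
        obtain ⟨σ, hσ⟩ := iter_hom s j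
        rw [← hσ, map_div₀, hσ, hσ, h.s_pow_const j _ (F0.algebraMap_mem e)]
      rw [Finset.prod_congr rfl h2, Finset.prod_div_distrib, Finset.prod_const, Finset.card_range,
        ← hc, ← map_pow, he, div_self ((map_ne_zero _).2 hc0)])
  have hsb0 : s b ≠ 0 := (map_ne_zero_iff s s.injective).2 hb0
  have h2 : dv hF u + h.S (dv hF b) = dv hF b := by
    have h3 := congrArg (dv hF) hb
    rw [dv_mul hF (div_ne_zero hu heF) hsb0, dv_div hF hu heF, dv_algebraMap, sub_zero,
      ← h.S_dv hF] at h3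
    exact h3
  have h3 : h.S (D + dv hF b) = D + dv hF b := by
    rw [map_add, ← sub_eq_zero]
    rw [← hD] at h2
    have h4 : h.S D + h.S (dv hF b) - (D + dv hF b) =
        (h.S D - D + h.S (dv hF b)) - dv hF b := by abel
    rw [h4, h2, sub_self]
  have h4 := h.deg_inv hF hF0 _ (D + dv hF b) le_rfl (fun Q => by
    conv_lhs => rw [← h3]
    exact h.S_apply _ Q)
  rwa [map_add, deg_dv hF hb0, add_zero] at h4

/-- The class of `f` on the cover is `(s - 1) D` up to `g`. -/
def Cyc.Rep (h : Cyc F0 s n w ζ) (f : F) (D : Place E F →₀ ℤ) (g : F) : Prop :=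
  f ≠ 0 ∧ g ≠ 0 ∧ dv hF f = n • (h.S D - D + dv hF g)

theorem Cyc.Rep.mul {h : Cyc F0 s n w ζ} {f f' g g' : F} {D D' : Place E F →₀ ℤ}
    (h1 : h.Rep hF f D g) (h2 : h.Rep hF f' D' g') : h.Rep hF (f * f') (D + D') (g * g') := by
  refine ⟨mul_ne_zero h1.1 h2.1, mul_ne_zero h1.2.1 h2.2.1, ?_⟩
  rw [dv_mul hF h1.1 h2.1, dv_mul hF h1.2.1 h2.2.1, h1.2.2, h2.2.2, map_add, ← nsmul_add]
  congr 1
  abel

theorem Cyc.Rep.inv {h : Cyc F0 s n w ζ} {f g : F} {D : Place E F →₀ ℤ}
    (h1 : h.Rep hF f D g) : h.Rep hF f⁻¹ (-D) g⁻¹ := by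
  refine ⟨inv_ne_zero h1.1, inv_ne_zero h1.2.1, ?_⟩
  rw [dv_inv hF h1.1, dv_inv hF h1.2.1, h1.2.2, map_neg, ← smul_neg]
  congr 1
  abel

theorem Cyc.Rep.pow {h : Cyc F0 s n w ζ} {g : F} (hg : g ≠ 0) : h.Rep hF (g ^ n) 0 g := by
  refine ⟨pow_ne_zero n hg, hg, ?_⟩
  rw [dv_pow hF hg, map_zero, sub_zero, zero_add]

include hF0 in
theorem Cyc.Rep.deg_eq {h : Cyc F0 s n w ζ} {f g g' : F} {D D' : Place E F →₀ ℤ}
    (h1 : h.Rep hF f D g) (h2 : h.Rep hF f D' g') : (n : ℤ) ∣ deg D - deg D' := by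
  have h3 : n • (h.S D - D + dv hF g) = n • (h.S D' - D' + dv hF g') := by
    rw [← h1.2.2, h2.2.2]
  have h4 : h.S D - D + dv hF g = h.S D' - D' + dv hF g' := by
    ext Q
    have h5 := DFunLike.congr_fun h3 Q
    rw [Finsupp.smul_apply, Finsupp.smul_apply, nsmul_eq_mul, nsmul_eq_mul] at h5
    exact mul_left_cancel₀ (by exact_mod_cast h.hn.ne') h5
  rw [← map_sub]
  refine h.deg_wd hF hF0 (div_ne_zero h2.2.1 h1.2.1) ?_
  rw [dv_div hF h2.2.1 h1.2.1, map_sub]
  have h5 : h.S D - h.S D' - (D - D') - (dv hF g' - dv hF g) =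
    (h.S D - D + dv hF g) - (h.S D' - D' + dv hF g') := by abel
  rw [← sub_eq_zero, h5, h4, sub_self]

/-- There is a class of degree one. -/
theorem Cyc.exists_deg_one (h : Cyc F0 s n w ζ) :
    ∃ (f : F) (D : Place E F →₀ ℤ) (g : F), f ∈ F0 ∧ h.Rep hF f D g ∧ deg D = 1 := by
  classical
  obtain ⟨x, hx, -⟩ := id hF
  obtain ⟨P, -⟩ := exists_place hx
  set A : Place E F →₀ ℤ := Finsupp.single P 1 with hA
  have hdegA : deg A = 1 := deg_single P 1
  have hdeg : deg (h.S A - A) = 0 := by rw [map_sub, h.deg_S, sub_self]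
  obtain ⟨W, g, hg0, hW⟩ := picDiv hF n h.hn (h.S A - A) (by rw [← deg_eq]; exact hdeg)
  have hW' : h.S A - A = n • W + dv hF g := by
    ext Q
    rw [hW Q, Finsupp.add_apply, Finsupp.smul_apply, nsmul_eq_mul, dv_apply]
  have hdegW : deg W = 0 := by
    have h1 := congrArg deg hW'
    rw [hdeg, map_add, deg_dv hF hg0, add_zero, map_nsmul, nsmul_eq_mul] at h1
    exact (mul_eq_zero.1 h1.symm).resolve_left (by exact_mod_cast h.hn.ne')
  set T : Module.End ℤ (Place E F →₀ ℤ) := ∑ j ∈ Finset.range n, h.S ^ j with hT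
  set R : Module.End ℤ (Place E F →₀ ℤ) := ∑ j ∈ Finset.range n, ∑ i ∈ Finset.range j, h.S ^ i
    with hR
  have hTR : T = (h.S - 1) * R + (n : Module.End ℤ (Place E F →₀ ℤ)) := by
    rw [hT, hR, Finset.mul_sum]
    have h1 : ∀ j ∈ Finset.range n, (h.S - 1) * ∑ i ∈ Finset.range j, h.S ^ i = h.S ^ j - 1 :=
      fun j _ => mul_geom_sum _ _
    rw [Finset.sum_congr rfl h1, Finset.sum_sub_distrib, Finset.sum_const, Finset.card_range,
      nsmul_eq_mul, mul_one, sub_add_cancel]
  have hTS : T * (h.S - 1) = 0 := by rw [hT, geom_sum_mul, h.S_n, sub_self]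
  set N := ∏ j ∈ Finset.range n, s^[j] g with hN
  have hsg : ∀ j, s^[j] g ≠ 0 := by
    intro j
    obtain ⟨σ, hσ⟩ := iter_hom s j
    rw [← hσ]
    exact (map_ne_zero_iff σ σ.injective).2 hg0
  have hN0 : N ≠ 0 := Finset.prod_ne_zero_iff.2 fun j _ => hsg j
  have hsN : s N = N := by
    rw [hN, map_prod]
    have h1 : ∀ j ∈ Finset.range n, s (s^[j] g) = s^[j + 1] g := fun j _ =>
      (Function.iterate_succ_apply' _ _ _).symm
    rw [Finset.prod_congr rfl h1]
    have h3 := Finset.prod_range_succ (fun k => s^[k] g) n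
    have h4 := Finset.prod_range_succ' (fun k => s^[k] g) n
    rw [h3, h.sn] at h4
    exact (mul_right_cancel₀ hg0 h4).symm
  have hNF : N ∈ F0 := h.fix N hsN
  have hdvN : dv hF N = -(n • T W) := by
    rw [hN, h.dv_prod hF hg0, ← hT]
    have h1 : dv hF g = (h.S - 1) A - n • W := by
      have h2 : (h.S - 1) A = h.S A - A := rfl
      rw [h2, hW']
      abel
    rw [h1, map_sub, ← Module.End.mul_apply, hTS, map_nsmul]
    change (0 : Place E F →₀ ℤ) - _ = _
    rw [zero_sub]
  refine ⟨N⁻¹, A + R W, g⁻¹, F0.inv_mem hNF, ⟨inv_ne_zero hN0, inv_ne_zero hg0, ?_⟩, ?_⟩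
  · rw [dv_inv hF hN0, hdvN, neg_neg, dv_inv hF hg0]
    congr 1
    have h1 : T W = (h.S - 1) (R W) + n • W := by
      rw [hTR, LinearMap.add_apply, Module.End.mul_apply]
      congr 1
    have h2 : (h.S - 1) (R W) = h.S (R W) - R W := rfl
    have h3 : n • W = h.S A - A - dv hF g := by rw [hW']; abel
    rw [h1, h2, h3, map_add]
    abel
  · rw [map_add, hdegA, hR]
    have h1 : deg ((∑ j ∈ Finset.range n, ∑ i ∈ Finset.range j, h.S ^ i) W) = 0 := by
      rw [LinearMap.sum_apply, map_sum]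
      refine Finset.sum_eq_zero fun j _ => ?_
      rw [LinearMap.sum_apply, map_sum]
      refine Finset.sum_eq_zero fun i _ => ?_
      rw [h.deg_S_pow, hdegW]
    rw [h1, add_zero]

end

end Pool.Agent.M
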