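import Pool.Agent.Helper13.M.Defs
import Pool.Agent.Helper10.M.W1a
import Pool.Agent.Helper10.M.W1d
import Pool.Agent.SC.FFExt

/-!
# Project M, block W1: duality
-/

set_option autoImplicit false

namespace Pool.Agent.M

open VC (Place ord IsFunctionField)
open FF

/-- **Block W1 (duality).** -/
theorem w1 (hFT : StmtFT) : StmtW1 := by
  classical
  intro E F _ _ _ _ _ F0 hF0 n w hn hw0 hgen fw hfw hdvd hmin σ τ χ hσE hσF0 hτ hσw
  obtain ⟨ζ, hζ⟩ : ∃ ζ : E, IsPrimitiveRoot ζ n := by
    have : NeZero (n : E) := ⟨Nat.cast_ne_zero.2 hn.ne'⟩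
    exact HasEnoughRootsOfUnity.exists_primitiveRoot E n
  have hF00 : CharZero F0 := charZero_of_injective_algebraMap (algebraMap E F0).injective
  -- the generator of the Galois group
  obtain ⟨hfd, s, hsw, hsfix⟩ := exists_gen (K := F0) (L := F) (n := n) hn
    (ζ := algebraMap E F0 ζ) (hζ.map_of_injective (algebraMap E F0).injective) hw0 (a := fw)
    hfw.symm (by
      rw [eq_top_iff]
      intro x _
      have h1 : IntermediateField.adjoin E ((F0 : Set F) ∪ {w}) ≤
          (IntermediateField.adjoin F0 {w}).restrictScalars E := by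
        rw [IntermediateField.adjoin_le_iff]
        rintro y (hy | hy)
        · exact (IntermediateField.adjoin F0 {w}).algebraMap_mem ⟨y, hy⟩
        · rw [Set.mem_singleton_iff.1 hy]
          exact IntermediateField.mem_adjoin_simple_self F0 w
      rw [hgen] at h1
      exact h1 (IntermediateField.mem_top (x := x))) (fun j hj hjn hcon => by
      obtain ⟨c, hc⟩ := hcon
      exact hmin j hj hjn (by rw [← hc]; exact c.2))
  have hF : IsFunctionField E F := SC.isFunctionField_of_finite (M := F0) hF0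
  have hζF : algebraMap F0 F (algebraMap E F0 ζ) = algebraMap E F ζ := rfl
  rw [hζF] at hsw
  have hsn : ∀ x, (s : F → F)^[n] x = x := by
    have h1 : ∀ (j : ℕ) (x : F), (s ^ j) x = (s : F → F)^[j] x := by
      intro j x
      induction j with
      | zero => rfl
      | succ j ih => rw [pow_succ', AlgEquiv.mul_apply, ih, Function.iterate_succ_apply']
    have h2 : ∀ j : ℕ, (s ^ j) w = algebraMap E F ζ ^ j * w := by
      intro j
      induction j with
      | zero => rw [pow_zero, pow_zero, one_mul]; rfl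
      | succ j ih =>
        have h3 : s (algebraMap E F ζ) = algebraMap E F ζ := s.commutes (algebraMap E F0 ζ)
        rw [pow_succ', AlgEquiv.mul_apply, ih, map_mul, map_pow, h3, hsw, pow_succ]
        ring
    have h3 : IntermediateField.adjoin E ((F0 : Set F) ∪ {w}) ≤
        (AlgHom.equalizer (((s ^ n : F ≃ₐ[F0] F) : F →ₐ[F0] F).restrictScalars E)
          (AlgHom.id E F)).toIntermediateField (fun z hz => by
            change (s ^ n) z⁻¹ = z⁻¹
            rw [map_inv₀]
            exact congrArg _ hz) := by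
      rw [IntermediateField.adjoin_le_iff]
      rintro y (hy | hy)
      · exact (s ^ n).commutes ⟨y, hy⟩
      · rw [Set.mem_singleton_iff.1 hy]
        change (s ^ n) w = w
        rw [h2, ← map_pow, hζ.pow_eq_one, map_one, one_mul]
    intro x
    rw [← h1]
    rw [hgen] at h3
    exact h3 (IntermediateField.mem_top (x := x))
  have hcyc : Cyc F0 s.toRingEquiv n w ζ :=
    { hn := hn
      hζ := hζ
      w_ne := hw0
      sw := hsw
      s_fix := fun x hx => s.commutes ⟨x, hx⟩
      fix := fun x hx => by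
        obtain ⟨c, rfl⟩ := hsfix x hx
        exact c.2
      sn := hsn
      dvd := ⟨fw, hfw, hdvd⟩ }
  -- `s` commutes with `σ`
  have hcomm : ∀ x : F, σ (s x) = s (σ x) := by
    have h1 : IntermediateField.adjoin E ((F0 : Set F) ∪ {w}) ≤
        { ((σ : F →+* F).comp (s : F →+* F)).eqLocusField ((s : F →+* F).comp (σ : F →+* F)) with
          algebraMap_mem' := fun e => by
            change σ (s (algebraMap E F e)) = s (σ (algebraMap E F e))
            have h2 : ∀ e : E, s (algebraMap E F e) = algebraMap E F e := fun e =>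
              s.commutes (algebraMap E F0 e)
            rw [h2, hσE, h2] } := by
      rw [IntermediateField.adjoin_le_iff]
      rintro y (hy | hy)
      · change σ (s y) = s (σ y)
        have h2 : ∀ z ∈ F0, s z = z := fun z hz => s.commutes ⟨z, hz⟩
        rw [h2 y hy, h2 _ ((hσF0 y).1 hy)]
      · rw [Set.mem_singleton_iff.1 hy]
        change σ (s w) = s (σ w)
        obtain ⟨l, hl, hlw⟩ := hσw
        have h2 : ∀ z ∈ F0, s z = z := fun z hz => s.commutes ⟨z, hz⟩
        rw [hsw, map_mul, hσE, hτ ζ hζ.pow_eq_one, hlw, map_mul, h2 l hl, map_pow, map_pow, hsw]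
        ring
    intro x
    rw [hgen] at h1
    exact h1 (IntermediateField.mem_top (x := x))
  -- the action of `σ` on the divisors
  set SG : (Place E F →₀ ℤ) →+ (Place E F →₀ ℤ) := imgDiv σ τ hσE with hSG
  have hSGS : ∀ D, SG (hcyc.S D) = hcyc.S (SG D) := by
    intro D
    induction D using Finsupp.induction_linear with
    | zero => rw [map_zero, map_zero, map_zero]
    | add D D' hD hD' => rw [map_add, map_add, map_add, map_add, hD, hD']
    | single Q m =>
      rw [hcyc.S_single, hSG, imgDiv_single, imgDiv_single, hcyc.S_single]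
      congr 1
      ext y
      change s.symm (σ.symm y) ∈ Q.ring ↔ σ.symm (s.symm y) ∈ Q.ring
      have h1 : s.symm (σ.symm y) = σ.symm (s.symm y) := by
        rw [AlgEquiv.symm_apply_eq, ← σ.injective.eq_iff, RingEquiv.apply_symm_apply, hcomm,
          RingEquiv.apply_symm_apply, AlgEquiv.apply_symm_apply]
      rw [h1]
  have hSGdv : ∀ g : F, SG (dv hF g) = dv hF (σ g) := imgDiv_dv σ τ hσE hF
  have hRepσ : ∀ {f g : F} {D : Place E F →₀ ℤ}, hcyc.Rep hF f D g →
      hcyc.Rep hF (σ f) (SG D) (σ g) := by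
    intro f g D h1
    refine ⟨(map_ne_zero_iff σ σ.injective).2 h1.1, (map_ne_zero_iff σ σ.injective).2 h1.2.1, ?_⟩
    rw [← hSGdv, h1.2.2, map_nsmul, map_add, map_sub, hSGS, hSGdv]
  -- the groups
  let emb : F0ˣ →* F := F0.val.toMonoidHom.comp (Units.coeHom F0)
  let N : Subgroup F0ˣ := (powMonoidHom n : F0ˣ →* F0ˣ).range
  let Y : Subgroup F0ˣ :=
    { carrier := {f | ∃ D g, hcyc.Rep hF ((f : F0) : F) D g}
      mul_mem' := by
        rintro f f' ⟨D, g, h1⟩ ⟨D', g', h2⟩
        exact ⟨_, _, h1.mul hF h2⟩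
      one_mem' := by
        have h1 := Cyc.Rep.pow (h := hcyc) hF (g := (1 : F)) one_ne_zero
        rw [one_pow] at h1
        exact ⟨0, 1, h1⟩
      inv_mem' := by
        rintro f ⟨D, g, h1⟩
        refine ⟨-D, g⁻¹, ?_⟩
        have h2 := h1.inv hF
        convert h2 using 1
        rw [Units.val_inv_eq_inv_val]
        rfl }
  let Y₀ : Subgroup F0ˣ :=
    { carrier := {f | ∃ D g, hcyc.Rep hF ((f : F0) : F) D g ∧ (n : ℤ) ∣ deg D}
      mul_mem' := by
        rintro f f' ⟨D, g, h1, h1'⟩ ⟨D', g', h2, h2'⟩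
        exact ⟨_, _, h1.mul hF h2, by rw [map_add]; exact dvd_add h1' h2'⟩
      one_mem' := by
        have h1 := Cyc.Rep.pow (h := hcyc) hF (g := (1 : F)) one_ne_zero
        rw [one_pow] at h1
        exact ⟨0, 1, h1, by rw [map_zero]; exact dvd_zero _⟩
      inv_mem' := by
        rintro f ⟨D, g, h1, h1'⟩
        refine ⟨-D, g⁻¹, ?_, ?_⟩
        · have h2 := h1.inv hF
          convert h2 using 1
          rw [Units.val_inv_eq_inv_val]
          rfl
        · rw [map_neg]
          exact (dvd_neg).2 h1' }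
  let σ₀ : F0 →+* F0 := ((σ : F →+* F).comp (algebraMap F0 F)).codRestrict F0.toSubring
    (fun x => (hσF0 x).1 x.2)
  let φ : F0ˣ →* F0ˣ := Units.map σ₀
  have hφ : ∀ f : F0ˣ, ((φ f : F0) : F) = σ ((f : F0) : F) := fun f => rfl
  have hdvdY : ∀ f ∈ Y, ∀ P : Place E F0, (n : ℤ) ∣ ord P.ring (f : F0) := by
    rintro f ⟨D, g, h1⟩ P
    refine hcyc.dvd_below hF hF0 f.ne_zero (fun Q => ?_) P
    have h2 := DFunLike.congr_fun h1.2.2 Q
    rw [dv_apply, Finsupp.smul_apply, nsmul_eq_mul] at h2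
    exact ⟨_, h2⟩
  have hNY₀ : N ≤ Y₀ := by
    rintro _ ⟨g, rfl⟩
    refine ⟨0, ((g : F0) : F), ?_, by rw [map_zero]; exact dvd_zero _⟩
    have h1 := Cyc.Rep.pow (h := hcyc) hF (g := ((g : F0) : F))
      (fun h0 => g.ne_zero (Subtype.ext h0))
    exact h1
  obtain ⟨T, hT0, hT⟩ := hFT E F0 hF0 n hn
  obtain ⟨f₁, D₁, g₁, hf₁, hrep₁, hdeg₁⟩ := hcyc.exists_deg_one hF
  have hf₁0 : (⟨f₁, hf₁⟩ : F0) ≠ 0 := fun h0 => hrep₁.1 (congrArg Subtype.val h0)
  let y₁ : F0ˣ := Units.mk0 ⟨f₁, hf₁⟩ hf₁0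
  have hy₁ : ∀ i : ℕ, ∃ D g, hcyc.Rep hF (((y₁ ^ i : F0ˣ) : F0) : F) D g ∧ deg D = i := by
    intro i
    induction i with
    | zero =>
      have h1 := Cyc.Rep.pow (h := hcyc) hF (g := (1 : F)) one_ne_zero
      rw [one_pow] at h1
      exact ⟨0, 1, by rw [pow_zero]; exact h1, by rw [map_zero]; rfl⟩
    | succ i ih =>
      obtain ⟨D, g, h1, h2⟩ := ih
      refine ⟨D + D₁, g * g₁, ?_, by rw [map_add, h2, hdeg₁]; push_cast; ring⟩
      rw [pow_succ]
      exact h1.mul hF hrep₁
  obtain ⟨f, hf⟩ := w1_group N Y Y₀ φ (by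
      rintro _ ⟨g, rfl⟩
      exact ⟨φ g, (map_pow φ g n).symm⟩) (by
      rintro f ⟨D, g, h1, -⟩
      exact ⟨D, g, h1⟩) hNY₀ n ((fun u : F0ˣ => (u : F0)) ⁻¹' (T : Set F0))
      (T.finite_toSet.preimage Units.val_injective.injOn) (by
      intro y hy
      obtain ⟨t, ht, l, hl⟩ := hT (y : F0) y.ne_zero (hdvdY y hy)
      have hl0 : l ≠ 0 := by
        rintro rfl
        rw [zero_pow hn.ne', mul_zero] at hl
        exact y.ne_zero hl
      refine ⟨Units.mk0 t (hT0 t ht), ht, Units.mk0 l hl0, ?_⟩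
      apply Units.ext
      change l ^ n = (y : F0) * ((Units.mk0 t (hT0 t ht))⁻¹ : F0ˣ)
      rw [hl, Units.val_inv_eq_inv_val, Units.val_mk0]
      have := hT0 t ht
      field_simp) (by
      rintro y ⟨D, g, h1⟩
      have h2 := (hRepσ h1).mul hF (h1.inv hF)
      refine ⟨SG D + -D, σ g * g⁻¹, ?_, ?_⟩
      · convert h2 using 1
        change ((φ y : F0) : F) * (((y⁻¹ : F0ˣ) : F0) : F) = _
        rw [hφ, Units.val_inv_eq_inv_val]
        rfl
      · rw [map_add, map_neg, hSG, deg_imgDiv, add_neg_cancel]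
        exact dvd_zero _) y₁ ⟨D₁, g₁, hrep₁⟩ (by
      rintro i hi hin ⟨D, g, h1, h2⟩
      obtain ⟨D', g', h3, h4⟩ := hy₁ i
      have h5 := h3.deg_eq hF hF0 h1
      have h6 : (n : ℤ) ∣ deg D' := by
        have h7 := dvd_add h5 h2
        rwa [sub_add_cancel] at h7
      rw [h4] at h6
      have h7 : n ∣ i := by exact_mod_cast h6
      exact absurd (Nat.le_of_dvd hi h7) (by omega))
  refine ⟨fun i => (f i : F0), fun i => ⟨(f i).ne_zero, hdvdY _ (hf i).1, ?_, ?_⟩⟩
  · obtain ⟨l, hl⟩ := (hf i).2.1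
    refine ⟨((l : F0) : F), (l : F0).2, ?_⟩
    have h1 : φ (f i) = l ^ n * f i := by
      have h2 : l ^ n = φ (f i) * (f i)⁻¹ := hl
      rw [h2, inv_mul_cancel_right]
    have h2 := congrArg (fun u : F0ˣ => ((u : F0) : F)) h1
    change σ ((f i : F0) : F) = ((l : F0) : F) ^ n * ((f i : F0) : F) at h2
    change σ ((f i : F0) : F) = ((f i : F0) : F) * ((l : F0) : F) ^ n
    rw [h2, mul_comm]
  · intro j hj l hl
    have hl0 : l ≠ 0 := by
      rintro rfl
      rw [zero_pow hn.ne', mul_zero] at hl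
      exact (f i).ne_zero hl
    apply (hf i).2.2 j hj
    refine ⟨Units.mk0 l hl0, ?_⟩
    apply Units.ext
    change l ^ n = (f i : F0) * ((f j)⁻¹ : F0ˣ)
    have hl' : (f i : F0) = (f j : F0) * l ^ n := hl
    rw [hl', Units.val_inv_eq_inv_val]
    have := (f j).ne_zero
    field_simp

end Pool.Agent.M
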