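import Mathlib

/-!
# Project M, block W1: cyclic extensions
-/

set_option autoImplicit false

universe u

namespace Pool.Agent.M

open Polynomial

/-- The generator of the Galois group of a cyclic extension. -/
theorem exists_gen {K L : Type u} [Field K] [CharZero K] [Field L] [Algebra K L] {n : ℕ}
    (hn : 0 < n) {ζ : K} (hζ : IsPrimitiveRoot ζ n) {w : L} (hw0 : w ≠ 0) {a : K}
    (ha : w ^ n = algebraMap K L a) (hgen : IntermediateField.adjoin K {w} = ⊤)
    (hmin : ∀ j : ℕ, 0 < j → j < n → w ^ j ∉ (algebraMap K L).range) :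
    FiniteDimensional K L ∧ ∃ s : L ≃ₐ[K] L, s w = algebraMap K L ζ * w ∧
      ∀ x : L, s x = x → ∃ c : K, algebraMap K L c = x := by
  classical
  have ha0 : a ≠ 0 := by
    rintro rfl
    rw [map_zero] at ha
    exact pow_ne_zero n hw0 ha
  have hint : IsIntegral K w := ⟨X ^ n - C a, monic_X_pow_sub_C a hn.ne', by
    rw [eval₂_sub, eval₂_X_pow, eval₂_C, ha, sub_self]⟩
  have hfd : FiniteDimensional K L := by
    have h1 : FiniteDimensional K (IntermediateField.adjoin K {w}) :=
      IntermediateField.adjoin.finiteDimensional hint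
    rw [hgen] at h1
    exact FiniteDimensional.of_surjective
      (IntermediateField.topEquiv (F := K) (E := L)).toLinearMap
      (IntermediateField.topEquiv (F := K) (E := L)).surjective
  have hζL : IsPrimitiveRoot (algebraMap K L ζ) n := hζ.map_of_injective (algebraMap K L).injective
  have hroot : ∀ z : L, z ^ n = w ^ n → ∃ i < n, z = algebraMap K L ζ ^ i * w := by
    intro z hz
    have h1 : (z / w) ^ n = 1 := by rw [div_pow, hz, div_self (pow_ne_zero n hw0)]
    have : NeZero n := ⟨hn.ne'⟩
    obtain ⟨i, hi, h2⟩ := hζL.eq_pow_of_pow_eq_one h1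
    exact ⟨i, hi, by rw [h2, div_mul_cancel₀ _ hw0]⟩
  have hsplit : (X ^ n - C a : K[X]).IsSplittingField K L := by
    refine ⟨?_, ?_⟩
    · rw [Polynomial.map_sub, Polynomial.map_pow, map_X, map_C]
      exact X_pow_sub_C_splits_of_isPrimitiveRoot hζL ha
    · rw [eq_top_iff, ← IntermediateField.top_toSubalgebra, ← hgen,
        IntermediateField.adjoin_simple_toSubalgebra_of_isAlgebraic hint.isAlgebraic]
      refine Algebra.adjoin_mono ?_
      rw [Set.singleton_subset_iff, mem_rootSet]
      refine ⟨X_pow_sub_C_ne_zero hn a, ?_⟩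
      rw [map_sub, map_pow, aeval_X, aeval_C, ha, sub_self]
  have hgal : IsGalois K L := by
    refine IsGalois.of_separable_splitting_field (p := X ^ n - C a) ?_
    have : NeZero n := ⟨hn.ne'⟩
    exact separable_X_pow_sub_C a (Nat.cast_ne_zero.2 hn.ne') ha0
  have hρ : ∀ g : L ≃ₐ[K] L, ∃ i < n, g w = algebraMap K L ζ ^ i * w := by
    intro g
    refine hroot _ ?_
    rw [← map_pow, ha, g.commutes]
  choose i hi hρ using hρ
  have hext : ∀ g g' : L ≃ₐ[K] L, g w = g' w → g = g' := by
    intro g g' h
    have h1 : IntermediateField.adjoin K {w} ≤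
        (AlgHom.equalizer (g : L →ₐ[K] L) (g' : L →ₐ[K] L)).toIntermediateField (fun z hz => by
          change g z⁻¹ = g' z⁻¹
          rw [map_inv₀, map_inv₀]
          exact congrArg _ hz) := by
      rw [IntermediateField.adjoin_simple_le_iff]
      exact h
    rw [hgen] at h1
    exact AlgEquiv.ext fun z => h1 (IntermediateField.mem_top (x := z))
  have hpow : ∀ (g : L ≃ₐ[K] L) (j : ℕ), (g ^ j) w = (algebraMap K L ζ ^ i g) ^ j * w := by
    intro g j
    induction j with
    | zero => rw [pow_zero, pow_zero, one_mul]; rfl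
    | succ j ih =>
      rw [pow_succ', AlgEquiv.mul_apply, ih, map_mul, map_pow, map_pow, g.commutes, hρ, pow_succ]
      ring
  set m := Nat.card (L ≃ₐ[K] L) with hm
  have hmpos : 0 < m := Nat.card_pos
  have hfix : w ^ m ∈ (algebraMap K L).range := by
    change w ^ m ∈ Set.range (algebraMap K L)
    rw [IsGalois.mem_range_algebraMap_iff_fixed]
    intro g
    have h1 : g ^ m = 1 := pow_card_eq_one'
    have h2 := hpow g m
    rw [h1, AlgEquiv.one_apply] at h2
    rw [map_pow, hρ, mul_pow]
    have h3 : (algebraMap K L ζ ^ i g) ^ m = 1 := by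
      have h4 : 1 * w = (algebraMap K L ζ ^ i g) ^ m * w := by rw [one_mul]; exact h2
      exact (mul_right_cancel₀ hw0 h4).symm
    rw [h3, one_mul]
  have hnm : n ≤ m := by
    by_contra hcon
    push Not at hcon
    exact hmin m hmpos hcon hfix
  let I : (L ≃ₐ[K] L) → Fin n := fun g => ⟨i g, hi g⟩
  have hI : Function.Injective I := by
    intro g g' h
    apply hext
    rw [hρ, hρ]
    have h1 : i g = i g' := congrArg Fin.val h
    rw [h1]
  have hbij : Function.Bijective I := by
    refine (Nat.bijective_iff_injective_and_card I).2 ⟨hI, le_antisymm ?_ ?_⟩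
    · exact Nat.card_le_card_of_injective I hI
    · rw [Nat.card_fin]
      exact hnm
  obtain ⟨s, hs⟩ := hbij.2 ⟨1 % n, Nat.mod_lt _ hn⟩
  have hs' : s w = algebraMap K L ζ * w := by
    rw [hρ]
    have h1 : i s = 1 % n := congrArg Fin.val hs
    rw [h1]
    rw [hζL.eq_orderOf, pow_mod_orderOf, pow_one]
  refine ⟨hfd, s, hs', ?_⟩
  intro x hx
  have h1 : x ∈ Set.range (algebraMap K L) := by
    rw [IsGalois.mem_range_algebraMap_iff_fixed]
    intro g
    have h2 : g = s ^ i g := by
      apply hext
      rw [hρ, hpow]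
      congr 1
      have h3 : algebraMap K L ζ ^ i s = algebraMap K L ζ := by
        have h4 := hρ s
        rw [hs'] at h4
        exact (mul_right_cancel₀ hw0 h4).symm
      rw [h3]
    have h3 : ∀ j : ℕ, (s ^ j) x = x := by
      intro j
      induction j with
      | zero => rfl
      | succ j ih => rw [pow_succ', AlgEquiv.mul_apply, ih, hx]
    rw [h2, h3]
  exact h1

/-- Hilbert's theorem 90. -/
theorem h90 {F : Type u} [Field F] (s : F ≃+* F) {n : ℕ} (hn : 0 < n) (hs : ∀ x, s^[n] x = x)
    (hne : ∀ i, 0 < i → i < n → ∃ x, s^[i] x ≠ x) {a : F}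
    (ha : ∏ j ∈ Finset.range n, s^[j] a = 1) : ∃ b : F, b ≠ 0 ∧ a * s b = b := by
  classical
  let A : ℕ → F := fun k => ∏ j ∈ Finset.range k, s^[j] a
  have hA : ∀ k, A (k + 1) = a * s (A k) := by
    intro k
    change ∏ j ∈ Finset.range (k + 1), s^[j] a = a * s (∏ j ∈ Finset.range k, s^[j] a)
    rw [Finset.prod_range_succ', mul_comm, map_prod]
    congr 1
    refine Finset.prod_congr rfl fun j _ => ?_
    rw [Function.iterate_succ_apply']
  have hpw : ∀ (k : ℕ) (x : F), (s ^ k) x = s^[k] x := by
    intro k x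
    induction k with
    | zero => rfl
    | succ k ih => rw [pow_succ', RingAut.mul_apply, ih, Function.iterate_succ_apply']
  have hli := (linearIndependent_monoidHom F F).comp
    (fun k : Fin n => (((s ^ (k : ℕ) : RingAut F) : F →+* F) : F →* F)) (by
      have key : ∀ i j : Fin n, i < j →
          (((s ^ (i : ℕ) : RingAut F) : F →+* F) : F →* F) ≠ ((s ^ (j : ℕ) : RingAut F) : F →+* F) := by
        intro i j hij h
        have hij' : (i : ℕ) < j := hij
        obtain ⟨x, hx⟩ := hne (j - i) (by omega) (by have := j.2; omega)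
        apply hx
        have h1 : ∀ y, s^[(i : ℕ)] y = s^[(j : ℕ)] y := by
          intro y
          rw [← hpw, ← hpw]
          exact congrArg (fun f : F →* F => f y) h
        have h2 : s^[(i : ℕ)] (s^[(j : ℕ) - i] x) = s^[(i : ℕ)] x := by
          rw [← Function.iterate_add_apply, Nat.add_sub_cancel' hij'.le, h1]
        exact (s.injective.iterate _) h2
      intro i j hij
      rcases lt_trichotomy i j with h | h | h
      · exact absurd hij (key i j h)
      · exact h
      · exact absurd hij.symm (key j i h))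
  have hex : ∃ c : F, ∑ k ∈ Finset.range n, A k * s^[k] c ≠ 0 := by
    by_contra hcon
    push Not at hcon
    have h1 := Fintype.linearIndependent_iff.1 hli (fun k => A k) (by
      funext c
      have h2 := hcon c
      rw [Finset.sum_range] at h2
      rw [Finset.sum_apply]
      rw [Pi.zero_apply, ← h2]
      refine Finset.sum_congr rfl fun j _ => ?_
      change A j * (s ^ (j : ℕ)) c = _
      rw [hpw]) ⟨0, hn⟩
    have h2 : A 0 = 1 := Finset.prod_range_zero _
    rw [show A ((⟨0, hn⟩ : Fin n) : ℕ) = A 0 from rfl, h2] at h1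
    exact one_ne_zero h1
  obtain ⟨c, hc⟩ := hex
  refine ⟨_, hc, ?_⟩
  rw [map_sum, Finset.mul_sum]
  have h1 : ∀ k ∈ Finset.range n, a * s (A k * s^[k] c) = A (k + 1) * s^[k + 1] c := by
    intro k _
    rw [hA, map_mul, Function.iterate_succ_apply', mul_assoc]
  rw [Finset.sum_congr rfl h1]
  have h2 : A n * s^[n] c = A 0 * s^[0] c := by
    have h3 : A n = 1 := ha
    have h4 : A 0 = 1 := Finset.prod_range_zero _
    rw [h3, h4, hs]
    rfl
  have h3 := Finset.sum_range_succ (fun k => A k * s^[k] c) n
  have h4 := Finset.sum_range_succ' (fun k => A k * s^[k] c) n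
  rw [h3, h2] at h4
  exact (add_right_cancel h4).symm

end Pool.Agent.M
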