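import Pool.Agent.Helper10.M.W1b
import Pool.Agent.Helper17.FF.PicDiv
import Pool.Agent.SC.PlaceExt
import Pool.Agent.Helper26.VC.Main3

/-!
# Project M, block W1: divisors on a cyclic unramified cover
-/

set_option autoImplicit false
set_option linter.unusedSectionVars false

universe u

namespace Pool.Agent.M

open VC (Place ord IsFunctionField)
open FF

/-- A cyclic unramified cover `F / F0` of degree `n`, `s` generates the Galois group. -/
structure Cyc {E F : Type u} [Field E] [Field F] [Algebra E F] (F0 : IntermediateField E F)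
    (s : F ≃+* F) (n : ℕ) (w : F) (ζ : E) : Prop where
  hn : 0 < n
  hζ : IsPrimitiveRoot ζ n
  w_ne : w ≠ 0
  sw : s w = algebraMap E F ζ * w
  s_fix : ∀ x ∈ F0, s x = x
  fix : ∀ x, s x = x → x ∈ F0
  sn : ∀ x, s^[n] x = x
  dvd : ∃ fw : F0, (fw : F) = w ^ n ∧ ∀ P : Place E F0, (n : ℤ) ∣ ord P.ring fw

section

variable {E F : Type u} [Field E] [IsAlgClosed E] [CharZero E] [Field F] [Algebra E F]
  {F0 : IntermediateField E F} {s : F ≃+* F} {n : ℕ} {w : F} {ζ : E}

theorem Cyc.hs (h : Cyc F0 s n w ζ) (a : E) :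
    s (algebraMap E F a) = algebraMap E F (RingEquiv.refl E a) :=
  h.s_fix _ (F0.algebraMap_mem a)

/-- the action on the places -/
def Cyc.im (h : Cyc F0 s n w ζ) : Place E F → Place E F := img s (RingEquiv.refl E) h.hs

/-- the action on the divisors -/
noncomputable def Cyc.S (h : Cyc F0 s n w ζ) : Module.End ℤ (Place E F →₀ ℤ) :=
  (imgDiv s (RingEquiv.refl E) h.hs).toIntLinearMap

theorem Cyc.s_pow_const (h : Cyc F0 s n w ζ) (i : ℕ) (x : F) (hx : x ∈ F0) : s^[i] x = x := by
  induction i with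
  | zero => rfl
  | succ i ih => rw [Function.iterate_succ_apply', ih, h.s_fix x hx]

theorem Cyc.s_pow_w (h : Cyc F0 s n w ζ) (i : ℕ) : s^[i] w = algebraMap E F ζ ^ i * w := by
  induction i with
  | zero => rw [pow_zero, one_mul]; rfl
  | succ i ih =>
    rw [Function.iterate_succ_apply', ih, map_mul, map_pow, h.hs, h.sw, pow_succ]
    change algebraMap E F ζ ^ i * (algebraMap E F ζ * w) = _
    ring

theorem iter_hom (s : F ≃+* F) (i : ℕ) : ∃ g : F ≃+* F, ∀ x, g x = s^[i] x := by
  induction i with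
  | zero => exact ⟨RingEquiv.refl F, fun x => rfl⟩
  | succ i ih =>
    obtain ⟨g, hg⟩ := ih
    exact ⟨g.trans s, fun x => by rw [Function.iterate_succ_apply', ← hg]; rfl⟩

theorem Cyc.mem_iter (h : Cyc F0 s n w ζ) (i : ℕ) (Q : Place E F) (y : F) :
    s^[i] y ∈ (h.im^[i] Q).ring ↔ y ∈ Q.ring := by
  induction i with
  | zero => rfl
  | succ i ih =>
    rw [Function.iterate_succ_apply', Function.iterate_succ_apply']
    exact (mem_img' s (RingEquiv.refl E) h.hs _ _).trans ih

theorem Cyc.nonunits_iter (h : Cyc F0 s n w ζ) (i : ℕ) (Q : Place E F) (y : F) :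
    s^[i] y ∈ (h.im^[i] Q).ring.nonunits ↔ y ∈ Q.ring.nonunits := by
  induction i with
  | zero => rfl
  | succ i ih =>
    rw [Function.iterate_succ_apply', Function.iterate_succ_apply']
    exact (nonunits_img s (RingEquiv.refl E) h.hs _ _).trans ih

theorem Cyc.im_n (h : Cyc F0 s n w ζ) (Q : Place E F) : h.im^[n] Q = Q := by
  ext y
  have h1 := h.mem_iter n Q y
  rwa [h.sn] at h1

variable (hF : IsFunctionField E F) (hF0 : IsFunctionField E F0)

include hF hF0 in
theorem unit_below (Q : Place E F) {u : F0} (hu : u ≠ 0)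
    (h : ord (VC.Place.comap hF0 hF F0.val Q).ring u = 0) : ord Q.ring (u : F) = 0 := by
  have hu' : (u : F) ≠ 0 := fun h0 => hu (Subtype.ext h0)
  have h1 : (u : F) ∈ Q.ring := (ord_nonneg_iff hF0 (VC.Place.comap hF0 hF F0.val Q) hu).1 h.ge
  have h2 : ((u⁻¹ : F0) : F) ∈ Q.ring := by
    refine (ord_nonneg_iff hF0 (VC.Place.comap hF0 hF F0.val Q) (inv_ne_zero hu)).1 ?_
    rw [ord_inv hF0 _ hu, h, neg_zero]
  have h3 := (ord_nonneg_iff hF Q hu').2 h1
  have h4 := (ord_nonneg_iff hF Q (inv_ne_zero hu')).2 h2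
  rw [ord_inv hF Q hu'] at h4
  omega

include hF hF0 in
/-- the Galois group acts freely on the places -/
theorem Cyc.free (h : Cyc F0 s n w ζ) (Q : Place E F) {i : ℕ} (hi : 0 < i) (hin : i < n) :
    h.im^[i] Q ≠ Q := by
  intro heq
  obtain ⟨fw, hfw, hdvd⟩ := h.dvd
  set P := VC.Place.comap hF0 hF F0.val Q with hP
  have hfw0 : fw ≠ 0 := by
    rintro rfl
    exact pow_ne_zero n h.w_ne hfw.symm
  obtain ⟨q, hq⟩ := hdvd P
  obtain ⟨g, hg0, hg⟩ := exists_ord_eq hF0 P q
  have hg0' : (g : F) ≠ 0 := fun h0 => hg0 (Subtype.ext h0)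
  have h1 : ord Q.ring ((fw / g ^ n : F0) : F) = 0 := by
    refine unit_below hF hF0 Q (div_ne_zero hfw0 (pow_ne_zero n hg0)) ?_
    rw [ord_div hF0 _ hfw0 (pow_ne_zero n hg0), ord_pow hF0 _ hg0, ← hP, hg, hq, sub_self]
  set u : F := w / g with hu
  have hu0 : u ≠ 0 := div_ne_zero h.w_ne hg0'
  have h2 : ((fw / g ^ n : F0) : F) = u ^ n := by
    rw [hu, div_pow, ← hfw]
    rfl
  rw [h2, ord_pow hF Q hu0] at h1
  have hn0 : (n : ℤ) ≠ 0 := by exact_mod_cast h.hn.ne'
  have h3 : ord Q.ring u = 0 := (mul_eq_zero.1 h1).resolve_left hn0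
  have huQ : u ∈ Q.ring := (ord_nonneg_iff hF Q hu0).1 h3.ge
  have hun : u ∉ Q.ring.nonunits := fun h4 => by
    have h5 := (ord_pos_iff hF Q hu0).2 h4
    omega
  obtain ⟨c, hc⟩ := exists_residue hF Q huQ
  have hsu : s^[i] u = algebraMap E F ζ ^ i * u := by
    obtain ⟨σ, hσ⟩ := iter_hom s i
    rw [← hσ, hu, map_div₀, hσ, hσ, h.s_pow_w, h.s_pow_const i _ g.2, mul_div_assoc]
  have h4 := (h.nonunits_iter i Q _).2 hc
  rw [heq] at h4
  have h5 : s^[i] (u - algebraMap E F c) = algebraMap E F ζ ^ i * u - algebraMap E F c := by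
    obtain ⟨σ, hσ⟩ := iter_hom s i
    rw [← hσ, map_sub, hσ, hσ, hsu, h.s_pow_const i _ (F0.algebraMap_mem c)]
  rw [h5] at h4
  have h6 : (algebraMap E F ζ ^ i * u - algebraMap E F c) - (u - algebraMap E F c) ∈
      Q.ring.nonunits := by
    rw [ValuationSubring.mem_nonunits_iff] at h4 hc ⊢
    exact lt_of_le_of_lt (Valuation.map_sub _ _ _) (max_lt h4 hc)
  have h7 : (algebraMap E F ζ ^ i * u - algebraMap E F c) - (u - algebraMap E F c) =
      algebraMap E F (ζ ^ i - 1) * u := by
    rw [map_sub, map_pow, map_one]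
    ring
  rw [h7] at h6
  have h8 : ζ ^ i - 1 ≠ 0 := by
    intro h0
    have h9 := h.hζ.dvd_of_pow_eq_one i (sub_eq_zero.1 h0)
    exact absurd (Nat.le_of_dvd hi h9) (by omega)
  apply hun
  have h9 := mul_mem_nonunits (R := Q.ring) (Q.algebraMap_mem (ζ ^ i - 1)⁻¹) h6
  rwa [← mul_assoc, ← map_mul, inv_mul_cancel₀ h8, map_one, one_mul] at h9

include hF hF0 in
/-- the cover is unramified -/
theorem Cyc.exists_unif (h : Cyc F0 s n w ζ) (Q : Place E F) :
    ∃ t : F0, t ≠ 0 ∧ ord Q.ring (t : F) = 1 := by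
  classical
  obtain ⟨π, hπ0, hπ⟩ := exists_uniformizer hF Q
  obtain ⟨u, hu⟩ := approx hF ((Finset.range n).image fun j => h.im^[j] Q)
    (fun Q' => if Q' = Q then π else 0) (-1)
  have hsmall : ∀ (P : Place E F) (x : F), val hF P x < WithZero.exp (-1 : ℤ) →
      x = 0 ∨ 2 ≤ ord P.ring x := by
    intro P x hx
    rcases eq_or_ne x 0 with h0 | h0
    · exact Or.inl h0
    · right
      rw [val_eq_exp hF P h0, WithZero.exp_lt_exp] at hx
      omega
  have hval : ∀ x : F, (x = 0 ∨ 2 ≤ ord Q.ring x) → val hF Q x < WithZero.exp (-1 : ℤ) := by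
    intro x hx
    rcases hx with rfl | hx
    · rw [map_zero]
      exact WithZero.exp_pos
    · have h0 : x ≠ 0 := by
        rintro rfl
        rw [ord_zero] at hx
        omega
      rw [val_eq_exp hF Q h0, WithZero.exp_lt_exp]
      omega
  have hu0 : val hF Q (u - π) < WithZero.exp (-1 : ℤ) := by
    have h1 := hu Q (Finset.mem_image.2 ⟨0, Finset.mem_range.2 h.hn, rfl⟩)
    rwa [if_pos rfl] at h1
  have huj : ∀ j, 0 < j → j < n → val hF Q (s^[j] u) < WithZero.exp (-1 : ℤ) := by
    intro j hj hjn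
    have h1 := hu (h.im^[n - j] Q) (Finset.mem_image.2 ⟨n - j, Finset.mem_range.2 (by omega), rfl⟩)
    rw [if_neg (h.free hF hF0 Q (by omega) (by omega)), sub_zero] at h1
    have h2 : h.im^[j] (h.im^[n - j] Q) = Q := by
      rw [← Function.iterate_add_apply, Nat.add_sub_cancel' hjn.le, h.im_n]
    apply hval
    rcases hsmall _ _ h1 with h3 | h3
    · left
      rw [h3]
      obtain ⟨σ, hσ⟩ := iter_hom s j
      rw [← hσ, map_zero]
    · right
      have h4 : ∀ (i : ℕ) (P : Place E F) (x : F), ord (h.im^[i] P).ring (s^[i] x) =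
          ord P.ring x := by
        intro i P x
        induction i with
        | zero => rfl
        | succ i ih =>
          rw [Function.iterate_succ_apply', Function.iterate_succ_apply']
          exact (ord_img s (RingEquiv.refl E) h.hs hF _ _).trans ih
      have h5 := h4 j (h.im^[n - j] Q) u
      rw [h2] at h5
      rw [h5]
      exact h3
  -- the trace
  set t : F := ∑ j ∈ Finset.range n, s^[j] u with ht
  have hst : s t = t := by
    rw [ht, map_sum]
    have h1 : ∀ j ∈ Finset.range n, s (s^[j] u) = s^[j + 1] u := fun j _ =>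
      (Function.iterate_succ_apply' _ _ _).symm
    rw [Finset.sum_congr rfl h1]
    have h3 := Finset.sum_range_succ (fun k => s^[k] u) n
    have h4 := Finset.sum_range_succ' (fun k => s^[k] u) n
    rw [h3, h.sn] at h4
    exact (add_right_cancel h4).symm
  have hdiff : val hF Q (t - π) < WithZero.exp (-1 : ℤ) := by
    have h1 : t - π = (∑ j ∈ Finset.range (n - 1), s^[j + 1] u) + (u - π) := by
      have h2 := Finset.sum_range_succ' (fun k => s^[k] u) (n - 1)
      rw [Nat.sub_add_cancel h.hn] at h2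
      rw [ht, h2]
      change _ + u - π = _
      ring
    rw [h1]
    refine lt_of_le_of_lt (Valuation.map_add _ _ _) (max_lt ?_ hu0)
    refine Valuation.map_sum_lt _ WithZero.exp_ne_zero fun j hj => ?_
    have := Finset.mem_range.1 hj
    exact huj _ (by omega) (by omega)
  have hvt : val hF Q t = WithZero.exp (-1 : ℤ) := by
    have h1 : val hF Q π = WithZero.exp (-1 : ℤ) := by rw [val_eq_exp hF Q hπ0, hπ]
    have h2 : t = π + (t - π) := by ring
    rw [h2, ← h1]
    refine Valuation.map_add_eq_of_lt_left _ ?_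
    rw [h1]
    exact hdiff
  have ht0 : t ≠ 0 := by
    intro h0
    rw [h0, map_zero] at hvt
    exact WithZero.exp_ne_zero hvt.symm
  refine ⟨⟨t, h.fix t hst⟩, fun h0 => ht0 (congrArg Subtype.val h0), ?_⟩
  rw [val_eq_exp hF Q ht0] at hvt
  have h1 := WithZero.exp_injective hvt
  change ord Q.ring t = 1
  omega

include hF hF0 in
/-- if all orders on the cover are divisible by `n`, then so are those on the base -/
theorem Cyc.dvd_below (h : Cyc F0 s n w ζ) {f : F0} (hf : f ≠ 0)
    (hd : ∀ Q : Place E F, (n : ℤ) ∣ ord Q.ring (f : F)) (P : Place E F0) :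
    (n : ℤ) ∣ ord P.ring f := by
  obtain ⟨Q, hQ⟩ := SC.exists_place_over (K := E) (N := F) P
  have hPQ : VC.Place.comap hF0 hF F0.val Q = P := by
    ext x
    exact hQ x
  obtain ⟨t, ht0, ht⟩ := h.exists_unif hF hF0 Q
  obtain ⟨π, hπ0, hπ⟩ := exists_uniformizer hF0 P
  have hπ0' : (π : F) ≠ 0 := fun h0 => hπ0 (Subtype.ext h0)
  have key : ∀ g : F0, g ≠ 0 → ord Q.ring (g : F) = ord P.ring g * ord Q.ring (π : F) := by
    intro g hg
    have hg' : (g : F) ≠ 0 := fun h0 => hg (Subtype.ext h0)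
    have h1 : ord Q.ring ((g / π ^ ord P.ring g : F0) : F) = 0 := by
      refine unit_below hF hF0 Q (div_ne_zero hg (zpow_ne_zero _ hπ0)) ?_
      rw [hPQ, ord_div hF0 P hg (zpow_ne_zero _ hπ0), ord_zpow hF0 P hπ0, hπ, mul_one, sub_self]
    have h2 : ((g / π ^ ord P.ring g : F0) : F) = (g : F) / (π : F) ^ ord P.ring g := by
      have h3 : ((π ^ ord P.ring g : F0) : F) = (π : F) ^ ord P.ring g := map_zpow₀ F0.val _ _
      rw [← h3]
      rfl
    rw [h2, ord_div hF Q hg' (zpow_ne_zero _ hπ0'), ord_zpow hF Q hπ0'] at h1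
    omega
  have h1 := key t ht0
  rw [ht] at h1
  have h2 : IsUnit (ord Q.ring (π : F)) := by
    exact IsUnit.of_mul_eq_one (ord P.ring t) (by rw [h1]; ring)
  have h3 := hd Q
  rw [key f hf] at h3
  exact (IsUnit.dvd_mul_right h2).1 h3

end

end Pool.Agent.M
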